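import Pool.Agent.N343.AS.Stm

/-!
AS/RIG (MP_160bbb_an): the exceptional point is not achieved.
-/

open Filter Topology MeasureTheory Finset

namespace Pool.Agent.N749.AS.RIG

open Pool.Agent.N343.AS

theorem main (hR : S_RR) (hA : S_RAN) (hO : S_ONE) : S_RIG := by
  rintro M y ⟨S, j, -, h1, h2⟩
  obtain ⟨-, -, hv⟩ := hR
  -- the terms tend to zero
  have ht : Tendsto (fun N => (j N : ℝ) * (1 / 2) ^ N) atTop (𝓝 0) := by
    have h3 := (h2.comp (tendsto_add_atTop_nat 1)).sub h2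
    simp only [sub_self] at h3
    refine h3.congr ?_
    intro N
    simp only [Function.comp]
    rw [Finset.sum_range_succ]
    ring
  have ht' : Tendsto (fun N => |(j N : ℝ) * (1 / 2) ^ N|) atTop (𝓝 0) := by
    simpa using ht.abs
  have hev : ∀ᶠ N in atTop, |(j N : ℝ) * (1 / 2) ^ N| < 1 :=
    ht'.eventually_lt_const (by norm_num)
  obtain ⟨i, hN1⟩ := eventually_atTop.1 hev
  have habs : ∀ N, |(j N : ℝ) * (1 / 2) ^ N| = |(j N : ℝ)| * (1 / 2) ^ N := by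
    intro N
    rw [abs_mul, abs_of_pos (by positivity : (0:ℝ) < (1 / 2) ^ N)]
  have hj : ∀ N, i + 1 ≤ N → |j N| ≤ 2 ^ N := by
    intro N hN
    have h := hN1 N (by omega)
    rw [habs, one_div, inv_pow, ← div_eq_mul_inv, div_lt_one (by positivity)] at h
    have h' : ((|j N| : ℤ) : ℝ) < ((2 ^ N : ℤ) : ℝ) := by push_cast; exact h
    exact le_of_lt (by exact_mod_cast h')
  have hran := hA S j (i + 1) (by omega) hj h1
  choose! m hm1 hm2 using hran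
  have hstep : ∀ N, i + 1 ≤ N → ∀ m' : ℕ, (m N : ℝ) / 2 ^ (Q (N - 1)) = m' / 2 ^ (Q i) →
      (∃ m'' : ℕ, (m (N + 1) : ℝ) / 2 ^ (Q (N + 1 - 1)) = m'' / 2 ^ (Q i)) ∧
      ∃ z : ℤ, j N = vv N + z * 2 ^ (N - i) ∨ j N = vv N - 1 + z * 2 ^ (N - i) := by
    intro N hN m' hm'
    refine hO N i m' ((m N : ℝ) / 2 ^ (Q (N - 1))) ((m (N + 1) : ℝ) / 2 ^ (Q (N + 1 - 1)))
      (S N) (j N) (by omega) hm' (hm1 N hN) (by positivity) (hm1 (N + 1) (by omega)) (hj N hN) ?_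
    have e1 := hm2 N hN
    have e2 := hm2 (N + 1) (by omega)
    rw [Finset.sum_range_succ] at e2
    linarith
  have hall : ∀ N, i + 1 ≤ N → ∃ m' : ℕ, (m N : ℝ) / 2 ^ (Q (N - 1)) = m' / 2 ^ (Q i) := by
    intro N hN
    induction N, hN using Nat.le_induction with
    | base => exact ⟨m (i + 1), rfl⟩
    | succ N hN ih =>
      obtain ⟨m', hm'⟩ := ih
      exact (hstep N hN m' hm').1
  -- lower bound
  have hlow : ∀ N, i + 1 ≤ N → (2 : ℤ) ^ (N - i) ≤ 3 * |j N| + 4 := by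
    intro N hN
    obtain ⟨m', hm'⟩ := hall N hN
    obtain ⟨-, z, hz⟩ := hstep N hN m' hm'
    have hvN : (3 : ℤ) * vv N + 1 = 4 ^ (N + 3) := by exact_mod_cast hv N
    have hdvd : (2 : ℤ) ^ (N - i) ∣ 4 ^ (N + 3) := by
      have : (4 : ℤ) ^ (N + 3) = 2 ^ (2 * (N + 3)) := by rw [pow_mul]; norm_num
      rw [this]
      exact pow_dvd_pow _ (by omega)
    have key : ∀ c : ℤ, c = 1 ∨ c = 4 → (2 : ℤ) ^ (N - i) ∣ 3 * j N + c →
        (2 : ℤ) ^ (N - i) ≤ 3 * |j N| + 4 := by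
      intro c hc hd
      have hne : 3 * j N + c ≠ 0 := by omega
      have h1 : (2 : ℤ) ^ (N - i) ≤ |3 * j N + c| :=
        Int.le_of_dvd (abs_pos.2 hne) ((dvd_abs _ _).2 hd)
      have h2 : |3 * j N + c| ≤ 3 * |j N| + |c| := by
        calc |3 * j N + c| ≤ |3 * j N| + |c| := abs_add_le _ _
          _ = 3 * |j N| + |c| := by rw [abs_mul]; norm_num
      have h3 : |c| ≤ 4 := by rcases hc with rfl | rfl <;> norm_num
      omega
    rcases hz with hz | hz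
    · refine key 1 (Or.inl rfl) ?_
      have : 3 * j N + 1 = 4 ^ (N + 3) + (3 * z) * 2 ^ (N - i) := by
        rw [hz, ← hvN]; ring
      rw [this]
      exact dvd_add hdvd (Dvd.intro_left _ rfl)
    · refine key 4 (Or.inr rfl) ?_
      have : 3 * j N + 4 = 4 ^ (N + 3) + (3 * z) * 2 ^ (N - i) := by
        rw [hz, ← hvN]; ring
      rw [this]
      exact dvd_add hdvd (Dvd.intro_left _ rfl)
  -- limit
  have hlim : Tendsto (fun N : ℕ => 3 * |(j N : ℝ) * (1 / 2) ^ N| + 4 * (1 / 2 : ℝ) ^ N)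
      atTop (𝓝 0) := by
    have h5 : Tendsto (fun N : ℕ => (1 / 2 : ℝ) ^ N) atTop (𝓝 0) :=
      tendsto_pow_atTop_nhds_zero_of_lt_one (by norm_num) (by norm_num)
    simpa using (ht'.const_mul 3).add (h5.const_mul 4)
  have hev2 : ∀ᶠ N : ℕ in atTop,
      3 * |(j N : ℝ) * (1 / 2) ^ N| + 4 * (1 / 2 : ℝ) ^ N < (1 / 2) ^ i :=
    hlim.eventually_lt_const (by positivity)
  obtain ⟨N, hN, hN2⟩ := (hev2.and (eventually_ge_atTop (i + 1))).exists
  have h6 := hlow N hN2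
  have h7 : (2 : ℝ) ^ (N - i) ≤ 3 * |(j N : ℝ)| + 4 := by exact_mod_cast h6
  have h8 : (2 : ℝ) ^ (N - i) * (1 / 2) ^ N = (1 / 2) ^ i := by
    obtain ⟨k, rfl⟩ : ∃ k, N = i + k := ⟨N - i, by omega⟩
    rw [Nat.add_sub_cancel_left, pow_add, mul_comm, mul_assoc, ← mul_pow]
    norm_num
  have h9 : (2 : ℝ) ^ (N - i) * (1 / 2) ^ N ≤ (3 * |(j N : ℝ)| + 4) * (1 / 2) ^ N :=
    mul_le_mul_of_nonneg_right h7 (by positivity)
  rw [habs] at hN
  rw [h8] at h9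
  linarith

end Pool.Agent.N749.AS.RIG
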